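import Pool.Agent.H211.CH.Stm

/-! Engstrom, left factors. -/

set_option autoImplicit false

open Polynomial

namespace Pool.Agent.H975.CH211

open Pool.Agent.H211.CH

universe u

section aux

variable {K : Type u} [Field K]

theorem comp_cancel {P Q B : K[X]} (hB : 0 < B.natDegree) (h : P.comp B = Q.comp B) : P = Q := by
  have h1 : (P - Q).comp B = 0 := by rw [sub_comp, h, sub_self]
  rcases Polynomial.comp_eq_zero_iff.1 h1 with h2 | ⟨_, h2⟩
  · exact sub_eq_zero.1 h2
  · rw [h2, natDegree_C] at hB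
    omega

/-- the coefficients below `-N` vanish -/
def Lo (N : ℤ) (s : LaurentSeries K) : Prop := ∀ j : ℤ, j < -N → s.coeff j = 0

theorem Lo.mul {M N : ℤ} {s t : LaurentSeries K} (hs : Lo M s) (ht : Lo N t) :
    Lo (M + N) (s * t) := by
  intro j hj
  rw [HahnSeries.coeff_mul]
  refine Finset.sum_eq_zero fun ij hij => ?_
  rw [Finset.mem_antidiagonal] at hij
  obtain ⟨-, -, hij⟩ := hij
  by_cases h1 : ij.1 < -M
  · rw [hs _ h1, zero_mul]
  · rw [ht ij.2 (by omega), mul_zero]

theorem Lo.sub {N : ℤ} {s t : LaurentSeries K} (hs : Lo N s) (ht : Lo N t) : Lo N (s - t) := by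
  intro j hj
  rw [HahnSeries.coeff_sub, hs j hj, ht j hj, sub_zero]

theorem lo_zero (N : ℤ) : Lo N (0 : LaurentSeries K) := fun _ _ => HahnSeries.coeff_zero

theorem Lo.neg {N : ℤ} {s : LaurentSeries K} (hs : Lo N s) : Lo N (-s) := by
  intro j hj
  rw [HahnSeries.coeff_neg, hs j hj, neg_zero]

theorem prod_lo (d : ℤ) (β : K → LaurentSeries K) (s : Finset K) (hβ : ∀ i ∈ s, Lo d (β i)) :
    ∀ k : ℕ, Lo (d * ((s.card : ℤ) - k)) ((∏ i ∈ s, (X - C (β i))).coeff k) := by
  classical
  induction s using Finset.induction_on with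
  | empty =>
    intro k j hj
    rw [Finset.prod_empty, coeff_one]
    split_ifs with h
    · subst h
      simp only [Finset.card_empty, Nat.cast_zero, sub_self, mul_zero, neg_zero] at hj
      rw [HahnSeries.coeff_one, if_neg hj.ne]
    · exact HahnSeries.coeff_zero
  | insert a s ha ih =>
    have hs : ∀ i ∈ s, Lo d (β i) := fun i hi => hβ i (Finset.mem_insert_of_mem hi)
    have ha' : Lo d (β a) := hβ a (Finset.mem_insert_self a s)
    intro k
    rw [Finset.prod_insert ha, Finset.card_insert_of_notMem ha, sub_mul, coeff_sub, coeff_C_mul]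
    push_cast
    have h1 : Lo (d * ((s.card : ℤ) + 1 - k)) (β a * (∏ i ∈ s, (X - C (β i))).coeff k) := by
      have h2 := ha'.mul (ih hs k)
      have e : d + d * ((s.card : ℤ) - k) = d * ((s.card : ℤ) + 1 - k) := by ring
      rw [e] at h2
      exact h2
    refine Lo.sub ?_ h1
    cases k with
    | zero =>
      rw [coeff_X_mul_zero]
      exact lo_zero _
    | succ k =>
      rw [coeff_X_mul]
      have h2 := ih hs k
      have e : d * ((s.card : ℤ) - k) = d * ((s.card : ℤ) + 1 - ((k + 1 : ℕ) : ℤ)) := by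
        push_cast
        ring
      rw [e] at h2
      exact h2

variable {f : K[X]} {th : LaurentSeries K} {r : K → (LaurentSeries K →ₐ[K] LaurentSeries K)}

theorem rot_comm (hP : Pui f th r) {ζ ω : K} (hζ : ζ ≠ 0) (hω : ω ≠ 0) (s : LaurentSeries K) :
    r ζ (r ω s) = r ω (r ζ s) := by
  apply HahnSeries.ext
  funext k
  rw [hP.rot ζ hζ, hP.rot ω hω, hP.rot ω hω, hP.rot ζ hζ]
  ring

theorem rot_mul (hP : Pui f th r) {ζ ω : K} (hζ : ζ ≠ 0) (hω : ω ≠ 0) (s : LaurentSeries K) :
    r (ζ * ω) s = r ζ (r ω s) := by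
  apply HahnSeries.ext
  funext k
  rw [hP.rot (ζ * ω) (mul_ne_zero hζ hω), hP.rot ζ hζ, hP.rot ω hω, mul_zpow]
  ring

theorem rot_one (hP : Pui f th r) (s : LaurentSeries K) : r 1 s = s := by
  apply HahnSeries.ext
  funext k
  rw [hP.rot 1 one_ne_zero, one_zpow, one_mul]

theorem rot_lo (hP : Pui f th r) {ζ : K} (hζ : ζ ≠ 0) {N : ℤ} {s : LaurentSeries K} (hs : Lo N s) :
    Lo N (r ζ s) := by
  intro j hj
  rw [hP.rot ζ hζ, hs j hj, mul_zero]

theorem nth_ne_zero {n : ℕ} (hn : 0 < n) {ζ : K} (h : ζ ∈ nthRootsFinset n (1 : K)) : ζ ≠ 0 := by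
  rw [mem_nthRootsFinset hn] at h
  rintro rfl
  rw [zero_pow hn.ne'] at h
  exact zero_ne_one h

/-- the invariance of a right factor -/
theorem right_inv {B : K[X]}
    (hr : B.map (algebraMap K (LaurentSeries K)) - C (aeval th B) =
        ∏ ω ∈ nthRootsFinset B.natDegree (1 : K), (X - C (r ω th)))
    {ζ : K} (h : ζ ∈ nthRootsFinset B.natDegree (1 : K)) :
    aeval (r ζ th) B = aeval th B := by
  have h1 := congrArg (eval (r ζ th)) hr
  rw [eval_prod, Finset.prod_eq_zero h (by simp), eval_sub, eval_map_algebraMap, eval_C,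
    sub_eq_zero] at h1
  exact h1

end aux

theorem core {K : Type u} [Field K] (hPUI : S_PUI K) (hROOTS : S_ROOTS K) (hINV : S_INV K)
    (hSYM : S_SYM K) (A B A' B' : K[X]) (hA : 0 < A.natDegree) (hB : 0 < B.natDegree)
    (hA' : 0 < A'.natDegree) (hB' : 0 < B'.natDegree) (mB : B.Monic) (mB' : B'.Monic)
    (mf : (A.comp B).Monic) (h : A.comp B = A'.comp B')
    (hco : Nat.Coprime B.natDegree B'.natDegree) :
    ∃ U W W' : K[X], A = U.comp W ∧ A' = U.comp W' ∧ W.natDegree = B'.natDegree ∧
      W'.natDegree = B.natDegree := by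
  obtain ⟨th, r, hP⟩ := hPUI (A.comp B) mf (by rw [natDegree_comp]; positivity)
  obtain ⟨hdeg, hroots⟩ := hROOTS (A.comp B) th r hP mf
  have rB := hroots A B mB hB hA rfl
  have rB' := hroots A' B' mB' hB' hA' h.symm
  set b := B.natDegree with hb
  set d := B'.natDegree with hd
  have inj : ∀ p : K[X], aeval th p = 0 → p = 0 := by
    intro p hp
    by_contra hne
    have h1 := (hdeg p hne).2
    rw [hp, HahnSeries.coeff_zero] at h1
    exact hne (leadingCoeff_eq_zero.1 h1.symm)
  have degle : ∀ (p : K[X]) (N : ℤ), p ≠ 0 → Lo N (aeval th p) → (p.natDegree : ℤ) ≤ N := by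
    intro p N hp hN
    by_contra hlt
    push Not at hlt
    have h1 := (hdeg p hp).2
    rw [hN _ (by omega)] at h1
    exact hp (leadingCoeff_eq_zero.1 h1.symm)
  have hB0 : B' ≠ 0 := mB'.ne_zero
  have loB' : Lo (d : ℤ) (aeval th B') := (hdeg B' hB0).1
  set sb := nthRootsFinset b (1 : K) with hsb
  set sd := nthRootsFinset d (1 : K) with hsd
  have card_sb : sb.card = b := by
    have h1 := congrArg natDegree rB
    rw [natDegree_finsetProd_X_sub_C_eq_card, natDegree_sub_C, natDegree_map] at h1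
    exact h1.symm
  have hβ : ∀ ω, aeval (r ω th) B' = r ω (aeval th B') := fun ω => aeval_algHom_apply (r ω) th B'
  -- the symmetric functions
  let φ : K[X] →+* LaurentSeries K := ((aeval (aeval th B) : K[X] →ₐ[K] LaurentSeries K)).toRingHom
  have hφC : φ.comp C = algebraMap K (LaurentSeries K) := by
    ext1 a
    exact aeval_C _ a
  have hφX : φ X = aeval th B := aeval_X _
  obtain ⟨Φ, mΦ, hΦ⟩ := hSYM K[X] (LaurentSeries K) φ (B.map (C : K →+* K[X]) - C X)
    (B'.map (C : K →+* K[X])) sb (fun ω => r ω th) (by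
      refine Monic.sub_of_left (mB.map _) ?_
      refine lt_of_le_of_lt degree_C_le ?_
      rw [degree_map_eq_of_injective C_injective]
      exact natDegree_pos_iff_degree_pos.1 hB) (by
      rw [Polynomial.map_sub, Polynomial.map_map, Polynomial.map_C, hφC, hφX]
      exact rB)
  have hq : ∀ ω : K, ((B'.map (C : K →+* K[X])).map φ).eval (r ω th) = r ω (aeval th B') := by
    intro ω
    rw [Polynomial.map_map, hφC, eval_map_algebraMap, hβ]
  simp only [hq] at hΦ
  set P := Φ.map φ with hPdef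
  have cardP : P.natDegree = b := by
    rw [hΦ, natDegree_finsetProd_X_sub_C_eq_card, card_sb]
  have monP : P.Monic := mΦ.map φ
  let c : ℕ → K[X] := fun k => (Φ.coeff k).comp B
  have hc : ∀ k, aeval th (c k) = P.coeff k := by
    intro k
    rw [hPdef, coeff_map]
    exact aeval_comp th
  -- orders
  have loP : ∀ k : ℕ, Lo ((d : ℤ) * ((b : ℤ) - k)) (P.coeff k) := by
    intro k
    have h1 := prod_lo (d : ℤ) (fun ω => r ω (aeval th B')) sb
      (fun ω hω => rot_lo hP (nth_ne_zero hB hω) loB') k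
    rw [card_sb, ← hΦ] at h1
    exact h1
  -- invariance
  have invP : ∀ ζ ∈ sd, ∀ k, r ζ (P.coeff k) = P.coeff k := by
    intro ζ hζ k
    have hζ0 : ζ ≠ 0 := nth_ne_zero hB' hζ
    have hinv : r ζ (aeval th B') = aeval th B' := by
      rw [← hβ]
      exact right_inv rB' hζ
    have h1 : P.map ((r ζ : LaurentSeries K →ₐ[K] LaurentSeries K) :
        LaurentSeries K →+* LaurentSeries K) = P := by
      rw [hΦ, Polynomial.map_prod]
      refine Finset.prod_congr rfl fun ω hω => ?_
      rw [Polynomial.map_sub, map_X, map_C]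
      have h2 : ((r ζ : LaurentSeries K →ₐ[K] LaurentSeries K) :
        LaurentSeries K →+* LaurentSeries K) (r ω (aeval th B')) = r ω (aeval th B') := by
        change r ζ (r ω (aeval th B')) = _
        rw [rot_comm hP hζ0 (nth_ne_zero hB hω), hinv]
      rw [h2]
    have h3 := congrArg (fun q => q.coeff k) h1
    simp only [coeff_map] at h3
    exact h3
  have hck : ∀ k, ∃ q : K[X], c k = q.comp B' := by
    intro k
    refine hINV (A.comp B) th r hP mf B' (c k) hB' (fun ω hω => right_inv rB' hω)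
      (fun ω hω => ?_)
    rw [aeval_algHom_apply, hc, invP ω hω]
  have hconst : ∀ k, 1 ≤ k → c k = C ((c k).coeff 0) := by
    intro k hk
    by_cases h0 : c k = 0
    · rw [h0]
      simp
    · have h1 := degle (c k) _ h0 (by rw [hc]; exact loP k)
      obtain ⟨q, hq⟩ := hck k
      have h2 : d ∣ (c k).natDegree := by
        rw [hq, natDegree_comp]
        exact dvd_mul_left _ _
      have h3 : b ∣ (c k).natDegree := by
        change b ∣ ((Φ.coeff k).comp B).natDegree
        rw [natDegree_comp]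
        exact dvd_mul_left _ _
      have h4 : b * d ∣ (c k).natDegree := hco.mul_dvd_of_dvd_of_dvd h3 h2
      have h5 : (c k).natDegree < b * d := by
        have h6 : ((c k).natDegree : ℤ) < (b : ℤ) * d := by
          have hk' : (1 : ℤ) ≤ k := by exact_mod_cast hk
          have hd' : (1 : ℤ) ≤ d := by exact_mod_cast hB'
          nlinarith
        exact_mod_cast h6
      exact eq_C_of_natDegree_eq_zero (Nat.eq_zero_of_dvd_of_lt h4 h5)
  have hcb : c b = 1 := by
    have h1 : aeval th (c b - 1) = 0 := by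
      rw [map_sub, hc, map_one, ← cardP, coeff_natDegree, monP.leadingCoeff, sub_self]
    exact sub_eq_zero.1 (inj _ h1)
  -- the relation
  have hrel : ∑ k ∈ Finset.range (b + 1), c k * B' ^ k = 0 := by
    apply inj
    have h1 : P.eval (aeval th B') = 0 := by
      rw [hΦ, eval_prod]
      refine Finset.prod_eq_zero (i := (1 : K)) ?_ ?_
      · rw [hsb, mem_nthRootsFinset hB, one_pow]
      · rw [rot_one hP]
        simp
    rw [eval_eq_sum_range, cardP] at h1
    rw [map_sum, ← h1]
    refine Finset.sum_congr rfl fun k _ => ?_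
    rw [map_mul, map_pow, hc]
  set Γ : K[X] := ∑ k ∈ Finset.range b, C ((c (k + 1)).coeff 0) * X ^ (k + 1) with hΓ
  have hW : (-(Φ.coeff 0)).comp B = Γ.comp B' := by
    have h1 : (-(Φ.coeff 0)).comp B = -c 0 := by
      rw [neg_comp]
    rw [Finset.sum_range_succ'] at hrel
    have h2 : Γ.comp B' = ∑ k ∈ Finset.range b, c (k + 1) * B' ^ (k + 1) := by
      rw [hΓ, Polynomial.sum_comp]
      refine Finset.sum_congr rfl fun k _ => ?_
      rw [mul_comp, C_comp, X_pow_comp, ← hconst (k + 1) (by omega)]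
    rw [h1, h2]
    rw [pow_zero, mul_one] at hrel
    exact (eq_neg_of_add_eq_zero_left hrel).symm
  have hΓdeg : Γ.natDegree = b := by
    refine natDegree_eq_of_le_of_coeff_ne_zero ?_ ?_
    · rw [hΓ]
      refine natDegree_sum_le_of_forall_le _ _ fun k hk => ?_
      refine (natDegree_C_mul_X_pow_le _ _).trans ?_
      have := Finset.mem_range.1 hk
      omega
    · obtain ⟨b', hb'⟩ : ∃ b', b = b' + 1 := ⟨b - 1, by omega⟩
      have h1 : Γ.coeff b = 1 := by
        rw [hΓ, finsetSum_coeff, Finset.sum_eq_single b']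
        · rw [coeff_C_mul_X_pow, if_pos hb', ← hb', hcb]
          simp
        · intro k _ hk
          rw [coeff_C_mul_X_pow, if_neg (by omega)]
        · intro hcon
          exact absurd (Finset.mem_range.2 (by omega)) hcon
      rw [h1]
      exact one_ne_zero
  set W := Γ.comp B' with hWd
  have hWdeg : W.natDegree = b * d := by rw [hWd, natDegree_comp, hΓdeg]
  have hΔdeg : (-(Φ.coeff 0)).natDegree = d := by
    have h1 : ((-(Φ.coeff 0)).comp B).natDegree = b * d := by rw [hW, hWdeg]
    rw [natDegree_comp, mul_comm] at h1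
    exact Nat.eq_of_mul_eq_mul_left hB h1
  -- f is a polynomial in W
  have hbd : 0 < b * d := Nat.mul_pos hB hB'
  have hdvd : b * d ∣ (A.comp B).natDegree := by
    refine hco.mul_dvd_of_dvd_of_dvd ?_ ?_
    · rw [natDegree_comp]
      exact dvd_mul_left _ _
    · rw [h, natDegree_comp]
      exact dvd_mul_left _ _
  obtain ⟨U, hU⟩ := hINV (A.comp B) th r hP mf W (A.comp B) (by rw [hWdeg]; exact hbd)
    (by
      intro ω hω
      rw [hWdeg, mem_nthRootsFinset hbd] at hω
      have hω0 : ω ≠ 0 := by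
        rintro rfl
        rw [zero_pow hbd.ne'] at hω
        exact zero_ne_one hω
      have hbez : (1 : ℤ) = b * Nat.gcdA b d + d * Nat.gcdB b d := by
        rw [← Nat.gcd_eq_gcd_ab, hco.gcd_eq_one]
        rfl
      set ω₁ := ω ^ ((d : ℤ) * Nat.gcdB b d) with hω₁
      set ω₂ := ω ^ ((b : ℤ) * Nat.gcdA b d) with hω₂
      have hprod : ω = ω₁ * ω₂ := by
        rw [hω₁, hω₂, ← zpow_add₀ hω0, add_comm, ← hbez, zpow_one]
      have hz : ω ^ ((b : ℤ) * d) = 1 := by
        rw [← Nat.cast_mul, zpow_natCast]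
        exact hω
      have hm₁ : ω₁ ∈ nthRootsFinset b (1 : K) := by
        rw [mem_nthRootsFinset hB, hω₁, ← zpow_natCast, ← zpow_mul]
        have e : (d : ℤ) * Nat.gcdB b d * b = (b : ℤ) * d * Nat.gcdB b d := by ring
        rw [e, zpow_mul, hz, one_zpow]
      have hm₂ : ω₂ ∈ nthRootsFinset d (1 : K) := by
        rw [mem_nthRootsFinset hB', hω₂, ← zpow_natCast, ← zpow_mul]
        have e : (b : ℤ) * Nat.gcdA b d * d = (b : ℤ) * d * Nat.gcdA b d := by ring
        rw [e, zpow_mul, hz, one_zpow]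
      have h1 : r ω₁ (aeval th W) = aeval th W := by
        rw [← hW, aeval_comp, ← aeval_algHom_apply, ← aeval_algHom_apply]
        rw [right_inv rB hm₁]
      have h2 : r ω₂ (aeval th W) = aeval th W := by
        rw [hWd, aeval_comp, ← aeval_algHom_apply, ← aeval_algHom_apply]
        rw [right_inv rB' hm₂]
      rw [aeval_algHom_apply, hprod, rot_mul hP (nth_ne_zero hB hm₁) (nth_ne_zero hB' hm₂), h2, h1])
    (by
      intro ω hω
      rw [hWdeg, mem_nthRootsFinset hbd] at hω
      have hω0 : ω ≠ 0 := by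
        rintro rfl
        rw [zero_pow hbd.ne'] at hω
        exact zero_ne_one hω
      rw [aeval_algHom_apply, hP.val]
      apply HahnSeries.ext
      funext k
      rw [hP.rot ω hω0]
      by_cases hk : k = -((A.comp B).natDegree : ℤ)
      · obtain ⟨e, he⟩ := hdvd
        have h1 : ω ^ k = 1 := by
          rw [hk, zpow_neg, zpow_natCast, he, pow_mul, hω, one_pow, inv_one]
        rw [h1, one_mul]
      · rw [HahnSeries.coeff_single_of_ne hk, mul_zero])
  refine ⟨U, -(Φ.coeff 0), Γ, ?_, ?_, hΔdeg, hΓdeg⟩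
  · apply comp_cancel hB
    rw [comp_assoc, hW]
    exact hU
  · apply comp_cancel hB'
    rw [comp_assoc, ← h]
    exact hU

theorem natDegree_lin {K : Type u} [Field K] {β : K} (hβ : β ≠ 0) :
    (C β * X : K[X]).natDegree = 1 := by
  rw [natDegree_C_mul hβ, natDegree_X]

/-- without normalisation -/
theorem core' {K : Type u} [Field K] (hPUI : S_PUI K) (hROOTS : S_ROOTS K) (hINV : S_INV K)
    (hSYM : S_SYM K) (A B A' B' : K[X]) (hA : 0 < A.natDegree) (hB : 0 < B.natDegree)
    (hA' : 0 < A'.natDegree) (hB' : 0 < B'.natDegree)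
    (h : A.comp B = A'.comp B') (hco : Nat.Coprime B.natDegree B'.natDegree) :
    ∃ U W W' : K[X], A = U.comp W ∧ A' = U.comp W' ∧ W.natDegree = B'.natDegree ∧
      W'.natDegree = B.natDegree := by
  have hβ : B.leadingCoeff ≠ 0 := leadingCoeff_ne_zero.2 (ne_zero_of_natDegree_gt hB)
  have hβ' : B'.leadingCoeff ≠ 0 := leadingCoeff_ne_zero.2 (ne_zero_of_natDegree_gt hB')
  have hf0 : 0 < (A.comp B).natDegree := by
    rw [natDegree_comp]
    positivity
  have hc : (A.comp B).leadingCoeff ≠ 0 := leadingCoeff_ne_zero.2 (ne_zero_of_natDegree_gt hf0)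
  set β := B.leadingCoeff with hβd
  set β' := B'.leadingCoeff with hβd'
  set c := (A.comp B).leadingCoeff with hcd
  have e1 : ∀ (q p : K[X]) (a : K), a ≠ 0 →
      (C c⁻¹ * q.comp (C a * X)).comp (C a⁻¹ * p) = C c⁻¹ * q.comp p := by
    intro q p a ha
    rw [mul_comp, C_comp, comp_assoc, mul_comp, C_comp, X_comp, ← mul_assoc, ← C_mul,
      mul_inv_cancel₀ ha, C_1, one_mul]
  have e2 : ∀ (q U W : K[X]) (a : K), a ≠ 0 → C c⁻¹ * q.comp (C a * X) = U.comp W →
      q = (C c * U).comp (W.comp (C a⁻¹ * X)) := by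
    intro q U W a ha hq
    have h1 : q.comp (C a * X) = C c * U.comp W := by
      rw [← hq, ← mul_assoc, ← C_mul, mul_inv_cancel₀ hc, C_1, one_mul]
    have h2 : q = (q.comp (C a * X)).comp (C a⁻¹ * X) := by
      rw [comp_assoc, mul_comp, C_comp, X_comp, ← mul_assoc, ← C_mul, mul_inv_cancel₀ ha, C_1,
        one_mul, comp_X]
    rw [h2, h1, mul_comp, C_comp, mul_comp, C_comp, comp_assoc]
  have hdegA : ∀ (q : K[X]) (a : K), a ≠ 0 → (C c⁻¹ * q.comp (C a * X)).natDegree = q.natDegree := by
    intro q a ha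
    rw [natDegree_C_mul (inv_ne_zero hc), natDegree_comp, natDegree_lin ha, mul_one]
  have hdB : (C β⁻¹ * B).natDegree = B.natDegree := natDegree_C_mul (inv_ne_zero hβ)
  have hdB' : (C β'⁻¹ * B').natDegree = B'.natDegree := natDegree_C_mul (inv_ne_zero hβ')
  obtain ⟨U, W, W', h1, h2, h3, h4⟩ := core hPUI hROOTS hINV hSYM
    (C c⁻¹ * A.comp (C β * X)) (C β⁻¹ * B) (C c⁻¹ * A'.comp (C β' * X)) (C β'⁻¹ * B')
    (by rw [hdegA A β hβ]; exact hA) (by rw [hdB]; exact hB) (by rw [hdegA A' β' hβ']; exact hA')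
    (by rw [hdB']; exact hB')
    (by
      rw [mul_comm]
      exact monic_mul_leadingCoeff_inv (leadingCoeff_ne_zero.1 hβ))
    (by
      rw [mul_comm]
      exact monic_mul_leadingCoeff_inv (leadingCoeff_ne_zero.1 hβ'))
    (by
      rw [e1 A B β hβ, mul_comm]
      exact monic_mul_leadingCoeff_inv (leadingCoeff_ne_zero.1 hc))
    (by rw [e1 A B β hβ, e1 A' B' β' hβ', h]) (by rw [hdB, hdB']; exact hco)
  refine ⟨C c * U, W.comp (C β⁻¹ * X), W'.comp (C β'⁻¹ * X), e2 A U W β hβ h1,
    e2 A' U W' β' hβ' h2, ?_, ?_⟩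
  · rw [natDegree_comp, natDegree_lin (inv_ne_zero hβ), mul_one, h3, hdB']
  · rw [natDegree_comp, natDegree_lin (inv_ne_zero hβ'), mul_one, h4, hdB]

theorem t_EL {K : Type u} [Field K] [IsAlgClosed K] [CharZero K] (hPUI : S_PUI K)
    (hROOTS : S_ROOTS K) (hINV : S_INV K) (hER : S_ER K) (hSYM : S_SYM K) : S_EL K := by
  have aux : ∀ n : ℕ, ∀ A B A' B' : K[X], B.natDegree = n → 0 < A.natDegree → 0 < B.natDegree →
      0 < A'.natDegree → 0 < B'.natDegree → A.comp B = A'.comp B' →
      1 < Nat.gcd A.natDegree A'.natDegree →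
      ∃ U W W' : K[X], 1 < U.natDegree ∧ A = U.comp W ∧ A' = U.comp W' := by
    intro n
    induction n using Nat.strong_induction_on with
    | _ n ih =>
      intro A B A' B' hn hA hB hA' hB' h hg
      by_cases hco : Nat.Coprime B.natDegree B'.natDegree
      · obtain ⟨U, W, W', h1, h2, h3, h4⟩ := core' hPUI hROOTS hINV hSYM A B A' B' hA hB hA' hB' h
          hco
        refine ⟨U, W, W', ?_, h1, h2⟩
        rw [h1, h2, natDegree_comp, natDegree_comp, h3, h4, Nat.gcd_mul_left,
          Nat.gcd_comm, hco.gcd_eq_one, mul_one] at hg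
        exact hg
      · have hg1 : 1 < Nat.gcd B.natDegree B'.natDegree := by
          have h0 : 0 < Nat.gcd B.natDegree B'.natDegree := Nat.gcd_pos_of_pos_left _ hB
          rcases Nat.lt_or_ge 1 (Nat.gcd B.natDegree B'.natDegree) with h1 | h1
          · exact h1
          · exact absurd (Nat.coprime_iff_gcd_eq_one.2 (by omega)) hco
        obtain ⟨V, W, W', hV, hBW, hBW'⟩ := hER A B A' B' hA hB hA' hB' h hg1
        have hW : 0 < W.natDegree := by
          rw [hBW, natDegree_comp] at hB
          exact Nat.pos_of_mul_pos_right hB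
        have hW' : 0 < W'.natDegree := by
          rw [hBW', natDegree_comp] at hB'
          exact Nat.pos_of_mul_pos_right hB'
        have hlt : W.natDegree < n := by
          rw [← hn, hBW, natDegree_comp]
          nlinarith
        have h1 : A.comp W = A'.comp W' := by
          apply comp_cancel (B := V) (by omega)
          rw [comp_assoc, comp_assoc, ← hBW, ← hBW']
          exact h
        exact ih _ hlt A W A' W' rfl hA hW hA' hW' h1 hg
  intro A B A' B' hA hB hA' hB' h hg
  exact aux _ A B A' B' rfl hA hB hA' hB' h hg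

end Pool.Agent.H975.CH211
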